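import Pool.Agent.C59.Core

/-! Naming parameters in a restriction of a small theory: only countably many sets of definable relations are closed. -/

namespace Pool.Agent.Results.MP_c59a7f_lc.ClosedPatterns

open FirstOrder FirstOrder.Language Set
open Pool.Agent.C59.Core

universe u v w

/-- `M` a structure whose theory is small, `Q = Φ(M)`, `a` a finite tuple, `D n` relations on `Q` (on products of the
sorts `φ i`) which are definable over `a` and definable over `Q`. Then only countably many sets of indices are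
closed. -/
theorem result (L : FirstOrder.Language.{u, v}) (M : Type w) [L.Structure M] [Nonempty M]
    (small : ∀ n : ℕ, Countable ((L.completeTheory M).CompleteType (Fin n)))
    (φ : ℕ → Set M) (hφ : ∀ i, (∅ : Set M).Definable₁ L (φ i)) {k : ℕ} (a : Fin k → M)
    (r : ℕ → ℕ) (τ : ∀ n, Fin (r n) → ℕ) (D : ∀ n, Set (Fin (r n) → M))
    (hs : ∀ n, ∀ q ∈ D n, ∀ j, q j ∈ φ (τ n j))
    (ha : ∀ n, (range a).Definable L (D n)) (hQ : ∀ n, (QQ φ).Definable L (D n)) :
    {J : Set ℕ | Closed L (QQ φ) D J}.Countable := by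
  classical
  have h := countable_patterns small hφ a τ D hs ha hQ Set.univ {J : Set ℕ | Closed L (QQ φ) D J} (by
    intro J hJ N _
    obtain ⟨σ, ⟨hσ, hfix⟩, hmove⟩ := exists_move (L := L) (Q := QQ φ) (D := D) (F := N.filter (· ∈ J))
      (S := N.filter (· ∉ J)) (fun n hn => hJ _ (fun m hm => (Finset.mem_filter.1 hm).2) n
        (Finset.mem_filter.1 hn).2)
    refine ⟨σ, hσ, fun n hn => ⟨fun h6 => ?_, fun h6 => hfix n (Finset.mem_filter.2 ⟨hn, h6⟩)⟩⟩
    by_contra h7
    exact hmove n (Finset.mem_filter.2 ⟨hn, h7⟩) h6)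
  refine h.mono ?_
  intro J hJ
  exact ⟨J, hJ, (Set.inter_univ J).symm⟩

end Pool.Agent.Results.MP_c59a7f_lc.ClosedPatterns
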