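import Pool.Agent.C59.Core

/-! Naming parameters in a restriction of a small theory: no infinite family of definable relations is independent. -/

namespace Pool.Agent.Results.MP_c59a7f_lc.TowerType

open FirstOrder FirstOrder.Language Set
open Pool.Agent.C59.Core

universe u v w

/-- `M` a structure whose theory is small, `Q = Φ(M)`, `a` a finite tuple, `D n` relations on `Q` (on products of the
sorts `φ i`) which are definable over `a` and definable over `Q`. Then every infinite set `I0` of indices has a finite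
subset `G` and an infinite subset `I` such that every `D i`, `i ∈ I`, is determined by `G` and any infinite subset of
`I`. -/
theorem result (L : FirstOrder.Language.{u, v}) (M : Type w) [L.Structure M] [Nonempty M]
    (small : ∀ n : ℕ, Countable ((L.completeTheory M).CompleteType (Fin n)))
    (φ : ℕ → Set M) (hφ : ∀ i, (∅ : Set M).Definable₁ L (φ i)) {k : ℕ} (a : Fin k → M)
    (r : ℕ → ℕ) (τ : ∀ n, Fin (r n) → ℕ) (D : ∀ n, Set (Fin (r n) → M))
    (hs : ∀ n, ∀ q ∈ D n, ∀ j, q j ∈ φ (τ n j))
    (ha : ∀ n, (range a).Definable L (D n)) (hQ : ∀ n, (QQ φ).Definable L (D n)) :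
    ∀ I0 : Set ℕ, I0.Infinite → ∃ (G : Finset ℕ) (I : Set ℕ), (∀ m ∈ G, m ∈ I0) ∧ I ⊆ I0 ∧ I.Infinite ∧
      ∀ I' ⊆ I, I'.Infinite → ∀ i ∈ I, Det L (QQ φ) D ((G : Set ℕ) ∪ I') i := by
  classical
  refine fun I0 hI0 => hereditary (fun I hI => ?_) I0 hI0
  by_contra hcon
  have hcon' : ∀ n ∈ I, ∀ F : Finset ℕ, (∀ m ∈ F, m ∈ I ∧ m ≠ n) →
      ∃ σ : Equiv.Perm (QQ φ), Fixes L (QQ φ) D F σ ∧ mv D σ n ≠ tr D n := by
    intro n hn F hF
    by_contra h1
    push Not at h1
    exact hcon ⟨n, hn, F, fun m hm => ⟨(hF m hm).1, (hF m hm).2⟩, h1⟩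
  have h := countable_patterns small hφ a τ D hs ha hQ I Set.univ (by
    intro J _ N hN
    exact exists_pattern hcon' N hN J)
  have hf := hI.natEmbedding
  have hcount : Countable (Set ℕ) := by
    have h1 : Countable {X : Set ℕ | ∃ J ∈ (Set.univ : Set (Set ℕ)), X = J ∩ I} := h.to_subtype
    have h3 : ∀ Z : Set ℕ, (fun i => (hf i : ℕ)) '' Z = ((fun i => (hf i : ℕ)) '' Z) ∩ I := by
      intro Z
      rw [eq_comm, Set.inter_eq_left]
      rintro _ ⟨i, _, rfl⟩
      exact (hf i).2
    let g : Set ℕ → {X : Set ℕ | ∃ J ∈ (Set.univ : Set (Set ℕ)), X = J ∩ I} := fun Z =>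
      ⟨(fun i => (hf i : ℕ)) '' Z, (fun i => (hf i : ℕ)) '' Z, Set.mem_univ _, h3 Z⟩
    have hg : Function.Injective g := by
      intro Z Z' hZ
      have h2 : (fun i => (hf i : ℕ)) '' Z = (fun i => (hf i : ℕ)) '' Z' := congrArg Subtype.val hZ
      have hinj : Function.Injective (fun i => (hf i : ℕ)) := by
        intro i j hij
        exact hf.injective (Subtype.ext hij)
      exact hinj.image_injective h2
    exact hg.countable
  obtain ⟨f, hfs⟩ := exists_surjective_nat (Set ℕ)
  exact Function.cantor_surjective f hfs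

end Pool.Agent.Results.MP_c59a7f_lc.TowerType
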